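import Mathlib

/-!
# The edge cover polynomial has at least `δ(G)` distinct roots

Write `m` for the number of edges and `P` for the edge cover polynomial. Deleting fewer than `δ`
edges never uncovers a vertex, so `P = (1 + X) ^ m + R` with `deg R ≤ m - δ`. The polynomial
`D = (1 + X) P' - m P = (1 + X) R' - m R` is not zero, has degree at most `m - δ`, and at each root
of `P` other than `-1` its multiplicity drops by at most one, while at `-1` it does not drop.
Counting roots gives `m - t ≤ m - δ`, where `t` is the number of distinct roots other than `-1`.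
-/

set_option autoImplicit false

namespace Pool.Agent.Results.MP_a87573_co.DistinctRoots

open Polynomial Finset

universe u

variable {V : Type u} [Fintype V] [DecidableEq V]

/-- The number of edge coverings of `G` with exactly `i` edges: sets `S` of `i` edges of `G` such
that every vertex of `G` is an endpoint of at least one edge of `S`. -/
def edgeCoverCount (G : SimpleGraph V) [DecidableRel G.Adj] (i : ℕ) : ℕ :=
  (G.edgeFinset.powerset.filter fun S => S.card = i ∧ ∀ v : V, ∃ e ∈ S, v ∈ e).card

/-- The edge cover polynomial `E(G, x) = ∑ e(G, i) x ^ i`. -/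
noncomputable def edgeCoverPoly (G : SimpleGraph V) [DecidableRel G.Adj] : ℂ[X] :=
  ∑ i ∈ range (G.edgeFinset.card + 1), C (edgeCoverCount G i : ℂ) * X ^ i

theorem coeff_edgeCoverPoly (G : SimpleGraph V) [DecidableRel G.Adj] (i : ℕ) :
    (edgeCoverPoly G).coeff i =
      if i ≤ G.edgeFinset.card then (edgeCoverCount G i : ℂ) else 0 := by
  unfold edgeCoverPoly
  simp only [finsetSum_coeff, coeff_C_mul, coeff_X_pow, mul_ite, mul_one, mul_zero]
  rw [Finset.sum_ite_eq]
  simp

/-- The purely algebraic part. -/
theorem many_roots {P : ℂ[X]} {m d : ℕ} (hd : 1 ≤ d) (hdm : d ≤ m) (hP0 : P ≠ 0)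
    (hroot : P.eval 0 = 0) (hdeg : P.natDegree = m)
    (hR : (P - (X + 1) ^ m).natDegree ≤ m - d) :
    d ≤ (P.roots.toFinset.erase (-1)).card := by
  classical
  set R := P - (X + 1) ^ m with hRdef
  set D : ℂ[X] := (X + 1) * derivative P - C (m : ℂ) * P with hD
  have hPR : P = (X + 1) ^ m + R := by rw [hRdef]; ring
  have hDR : D = (X + 1) * derivative R - C (m : ℂ) * R := by
    rw [hD, hPR]
    obtain ⟨k, rfl⟩ : ∃ k, m = k + 1 := ⟨m - 1, by omega⟩
    simp only [derivative_add, derivative_pow, derivative_X, derivative_one, Nat.add_sub_cancel]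
    simp only [Nat.cast_add, Nat.cast_one, map_add, map_natCast, map_one]
    ring
  have hDdeg : D.natDegree ≤ m - d := by
    rw [hDR]
    refine (natDegree_sub_le _ _).trans (max_le ?_ ?_)
    · by_cases hR0 : derivative R = 0
      · rw [hR0]; simp
      · have h1 : (derivative R).natDegree < R.natDegree := by
          apply natDegree_derivative_lt
          intro h
          apply hR0
          rw [natDegree_eq_zero] at h
          obtain ⟨c, hc⟩ := h
          rw [← hc]; simp
        have h2 : ((X + 1 : ℂ[X]) * derivative R).natDegree ≤ 1 + (derivative R).natDegree := by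
          refine natDegree_mul_le.trans (Nat.add_le_add_right ?_ _)
          have : (X + 1 : ℂ[X]) = X + C 1 := by simp
          rw [this, natDegree_X_add_C]
        omega
    · exact (natDegree_C_mul_le _ _).trans hR
  have hdvd0 : ∀ r : ℂ, ∀ k : ℕ, (X - C r) ^ k ∣ P → (X - C r) ^ (k - 1) ∣ derivative P := by
    intro r k hk
    rcases Nat.eq_zero_or_pos k with rfl | hkpos
    · simp
    · obtain ⟨Q, hQ⟩ := hk
      obtain ⟨j, rfl⟩ : ∃ j, k = j + 1 := ⟨k - 1, by omega⟩
      rw [hQ]
      simp only [Nat.add_sub_cancel, derivative_mul, derivative_pow, derivative_sub, derivative_X,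
        derivative_C, sub_zero, mul_one]
      refine dvd_add ?_ ?_
      · exact Dvd.dvd.mul_right (Dvd.dvd.mul_left (dvd_refl _) _) _
      · exact Dvd.dvd.mul_right (pow_dvd_pow _ (Nat.le_succ _)) _
  have hD0 : D ≠ 0 := by
    intro h0
    have hr : P.IsRoot 0 := hroot
    have hk : 0 < P.rootMultiplicity 0 := (rootMultiplicity_pos hP0).2 hr
    have h1 : (X + 1) * derivative P = C (m : ℂ) * P := by
      rw [← sub_eq_zero]; exact h0
    have hder := derivative_rootMultiplicity_of_root hr
    have hm0 : (C (m : ℂ) : ℂ[X]) ≠ 0 := by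
      rw [Ne, C_eq_zero]
      exact_mod_cast (by omega : m ≠ 0)
    have hne2 : C (m : ℂ) * P ≠ 0 := mul_ne_zero hm0 hP0
    have hne1 : (X + 1) * derivative P ≠ 0 := by rw [h1]; exact hne2
    have e1 := rootMultiplicity_mul (x := (0 : ℂ)) hne1
    have e2 := rootMultiplicity_mul (x := (0 : ℂ)) hne2
    have e3 : rootMultiplicity (0 : ℂ) (X + 1) = 0 := by
      apply rootMultiplicity_eq_zero
      simp [IsRoot]
    have e4 : rootMultiplicity (0 : ℂ) (C (m : ℂ)) = 0 := rootMultiplicity_C _ _
    rw [h1] at e1
    omega
  -- compare multiplicities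
  have hmult : ∀ r ∈ P.roots.toFinset,
      P.roots.count r ≤ D.roots.count r + (if r = -1 then 0 else 1) := by
    intro r _
    rw [count_roots, count_roots]
    have hk := pow_rootMultiplicity_dvd P r
    set k := rootMultiplicity r P
    have hk' := hdvd0 r k hk
    split_ifs with hr
    · subst hr
      have : (X - C (-1 : ℂ)) ^ k ∣ D := by
        rw [hD]
        refine dvd_sub ?_ (Dvd.dvd.mul_left hk _)
        rcases Nat.eq_zero_or_pos k with h0 | hkpos
        · rw [h0]; simp
        · have e : k = 1 + (k - 1) := by omega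
          have hx : (X + 1 : ℂ[X]) = X - C (-1 : ℂ) := by simp
          rw [hx, e, pow_add, pow_one]
          exact mul_dvd_mul (dvd_refl _) hk'
      simpa using (le_rootMultiplicity_iff hD0).2 this
    · have : (X - C r) ^ (k - 1) ∣ D := by
        rw [hD]
        refine dvd_sub (Dvd.dvd.mul_left hk' _) (Dvd.dvd.mul_left ?_ _)
        exact (pow_dvd_pow _ (Nat.sub_le _ _)).trans hk
      have := (le_rootMultiplicity_iff hD0).2 this
      omega
  have hcardP : P.roots.card = m := by
    rw [← hdeg]
    exact (splits_iff_card_roots.1 (IsAlgClosed.splits P))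
  have h1 : m = ∑ r ∈ P.roots.toFinset, P.roots.count r := by
    rw [Multiset.toFinset_sum_count_eq, hcardP]
  have h2 : ∑ r ∈ P.roots.toFinset, D.roots.count r ≤ D.natDegree := by
    refine le_trans ?_ (card_roots' D)
    rw [← Multiset.toFinset_sum_count_eq D.roots]
    have : ∑ r ∈ P.roots.toFinset, D.roots.count r =
        ∑ r ∈ P.roots.toFinset ∩ D.roots.toFinset, D.roots.count r := by
      symm
      apply Finset.sum_subset Finset.inter_subset_left
      intro x hx hx2
      rw [Multiset.count_eq_zero]
      intro hmem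
      exact hx2 (Finset.mem_inter.2 ⟨hx, Multiset.mem_toFinset.2 hmem⟩)
    rw [this]
    exact Finset.sum_le_sum_of_subset Finset.inter_subset_right
  have h3 : ∑ r ∈ P.roots.toFinset, (if r = -1 then 0 else 1) =
      (P.roots.toFinset.erase (-1)).card := by
    have : ∀ r : ℂ, (if r = -1 then (0 : ℕ) else 1) = if r ≠ -1 then 1 else 0 := by
      intro r; by_cases h : r = -1 <;> simp [h]
    simp_rw [this]
    rw [← Finset.card_filter]
    congr 1
    ext x
    simp [Finset.mem_erase, and_comm]
  have h4 := Finset.sum_le_sum hmult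
  rw [Finset.sum_add_distrib, h3, ← h1] at h4
  omega

/-- **Q1 of MP_a87573_co.** For every finite simple graph `G` the edge cover polynomial has at least
`δ(G)` distinct complex roots; in fact at least `δ(G)` distinct roots different from `-1`. -/
theorem result (G : SimpleGraph V) [DecidableRel G.Adj] :
    ∃ s : Finset ℂ, G.minDegree ≤ s.card ∧
      ∀ z ∈ s, z ≠ -1 ∧ (edgeCoverPoly G).eval z = 0 := by
  classical
  rcases Nat.eq_zero_or_pos G.minDegree with h0 | hpos
  · exact ⟨∅, by simp [h0], by simp⟩
  set m := G.edgeFinset.card with hm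
  have hV : Nonempty V := by
    by_contra h
    rw [not_nonempty_iff] at h
    have : G.minDegree = 0 := by
      simp [SimpleGraph.minDegree]
    omega
  obtain ⟨v0⟩ := hV
  have hdm : G.minDegree ≤ m := by
    refine (G.minDegree_le_degree v0).trans ?_
    rw [← G.card_incidenceFinset_eq_degree v0, hm]
    exact Finset.card_le_card (G.incidenceFinset_subset v0)
  -- counts of large edge sets
  have hcount : ∀ i, m - G.minDegree < i → i ≤ m → edgeCoverCount G i = m.choose i := by
    intro i hi him
    unfold edgeCoverCount
    rw [hm, ← Finset.card_powersetCard i G.edgeFinset]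
    congr 1
    ext S
    rw [Finset.mem_filter, Finset.mem_powerset, Finset.mem_powersetCard]
    refine ⟨fun h => ⟨h.1, h.2.1⟩, fun h => ⟨h.1, h.2, ?_⟩⟩
    intro v
    by_contra hcon
    push Not at hcon
    have hsub : G.incidenceFinset v ⊆ G.edgeFinset \ S := by
      intro e he
      rw [Finset.mem_sdiff]
      refine ⟨G.incidenceFinset_subset v he, fun heS => ?_⟩
      have : v ∈ e := by
        rw [SimpleGraph.mem_incidenceFinset] at he
        exact he.2
      exact hcon e heS this
    have hc := Finset.card_le_card hsub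
    rw [G.card_incidenceFinset_eq_degree, Finset.card_sdiff_of_subset h.1, h.2] at hc
    have := G.minDegree_le_degree v
    omega
  have hdeg : (edgeCoverPoly G).natDegree = m := by
    apply natDegree_eq_of_le_of_coeff_ne_zero
    · rw [natDegree_le_iff_coeff_eq_zero]
      intro N hN
      rw [coeff_edgeCoverPoly, if_neg (by omega)]
    · rw [coeff_edgeCoverPoly, if_pos (le_refl _), hcount m (by omega) (le_refl _)]
      simp
  have hP0 : edgeCoverPoly G ≠ 0 := by
    intro h
    rw [h] at hdeg
    simp at hdeg
    omega
  have hroot : (edgeCoverPoly G).eval 0 = 0 := by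
    rw [← coeff_zero_eq_eval_zero, coeff_edgeCoverPoly, if_pos (Nat.zero_le _)]
    have : edgeCoverCount G 0 = 0 := by
      unfold edgeCoverCount
      rw [Finset.card_eq_zero, Finset.filter_eq_empty_iff]
      intro S _ hS
      rw [Finset.card_eq_zero] at hS
      obtain ⟨e, he, -⟩ := hS.2 v0
      rw [hS.1] at he
      simp at he
    rw [this]
    simp
  have hR : (edgeCoverPoly G - (X + 1) ^ m).natDegree ≤ m - G.minDegree := by
    rw [natDegree_le_iff_coeff_eq_zero]
    intro N hN
    rw [coeff_sub, coeff_edgeCoverPoly, coeff_X_add_one_pow]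
    by_cases hNm : N ≤ m
    · rw [if_pos hNm, hcount N hN hNm, sub_self]
    · rw [if_neg hNm, Nat.choose_eq_zero_of_lt (by omega)]
      simp
  refine ⟨(edgeCoverPoly G).roots.toFinset.erase (-1),
    many_roots hpos hdm hP0 hroot hdeg hR, ?_⟩
  intro z hz
  rw [Finset.mem_erase, Multiset.mem_toFinset, mem_roots hP0] at hz
  exact ⟨hz.1, hz.2⟩

end Pool.Agent.Results.MP_a87573_co.DistinctRoots
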